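import Mathlib
import Pool.Agent.R658.CN.Stmts2

/-! # Project MP_d16342_al: definitions and task statements

Counterexample: `B = L^1([0,1], Z)`, `K = prod over (p, φ) of Z/p^2` where `p` is prime and
`φ : B → Z/p` a homomorphism, `G = {(b, k) | for all p, the set of all φ with k_φ ≢ φ b (mod p)
is small}`.  `G` is dense and sequentially closed in `B × K`, locally minimal and totally
disconnected, while `B × K` is not totally disconnected. -/

namespace R658.SC

open Topology Filter Set

universe u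

/-- every Cauchy sequence converges -/
def SeqComplete (G : Type u) [AddCommGroup G] [TopologicalSpace G] : Prop :=
  ∀ g : ℕ → G, (∀ U ∈ 𝓝 (0 : G), ∃ N, ∀ m ≥ N, ∀ n ≥ N, g m - g n ∈ U) →
    ∃ x, Tendsto g atTop (𝓝 x)

/-- there is a neighbourhood `U` of `0` such that every coarser Hausdorff group topology
in which `U` is still a neighbourhood of `0` coincides with the given topology -/
def LocallyMinimal (G : Type u) [AddCommGroup G] [τ : TopologicalSpace G] : Prop :=
  ∃ U ∈ 𝓝 (0 : G), ∀ σ : TopologicalSpace G, @IsTopologicalAddGroup G σ _ → @T2Space G σ →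
    τ ≤ σ → U ∈ @nhds G σ 0 → σ = τ

/-- `s` is injective modulo `p B` -/
def PInj {B : Type} [AddCommGroup B] (p : ℕ) (s : ℕ → B) : Prop :=
  ∀ m n, m ≠ n → ¬ ∃ c : B, s m - s n = p • c

/-- the `σ`-ideal of small sets of homomorphisms to `Z/p` -/
def Small {B : Type} [AddCommGroup B] (p : ℕ) (J : Set (B →+ ZMod p)) : Prop :=
  ∃ s : ℕ → ℕ → B, (∀ a, PInj p (s a)) ∧ ∀ φ ∈ J, φ ≠ 0 → ∃ a, ∀ n, φ (s a n) ≠ 0

/-- the properties of the metric group `B` which are used -/
structure Good (B : Type) [NormedAddCommGroup B] : Prop where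
  norm_nsmul : ∀ (n : ℕ) (b : B), ‖n • b‖ = n * ‖b‖
  inter : ∀ b : B, (∀ p : ℕ, p.Prime → ∃ c, b = p • c) → b = 0
  conn : ∃ b : B, b ≠ 0 ∧ b ∈ connectedComponent (0 : B)
  inf : ∀ p : ℕ, p.Prime → ∃ s : ℕ → B, PInj p s

/-- TASK L1: the group `L^1([0,1], Z)` is `Good`.
`conn`: the path `t ↦ 1_[0,t]` is continuous because `‖1_[0,t] - 1_[0,s]‖ = |t - s|`.
`inter`: if `b = p • c_p` for all primes `p` then almost everywhere every prime divides `b x`, so `b x = 0`.
`inf`: `s n = 1_[0, 1/(n+1)]`, the difference of two of them is `±1` on a set of positive measure, so not of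
the form `p • c`. -/
def TaskL1 : Prop :=
  Good (MeasureTheory.Lp ℤ 1 (MeasureTheory.volume : MeasureTheory.Measure unitInterval))

/-- TASK DIAG.  Work in the `ZMod p`-vector space `Q = B ⧸ pB` (`AddCommGroup.zmodModule`).  Build finite
(dimensional) subspaces `F_0 = ⊥ ≤ F_1 ≤ ...` with `[b] ∉ F_a` and `[s a n] ∈ F_(a+1)` for some `n`: the
subspace spanned by `F_a` and `[b]` is finite, so some `[s a n]` is not in it, `F_(a+1) = F_a + ⟨[s a n]⟩`.
Then `[b] ∉ ⨆ F_a`, so there is a linear form vanishing on `⨆ F_a` but not at `[b]`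
(`Submodule.exists_le_ker_of_notMem`). -/
def TaskDiag : Prop :=
  ∀ (B : Type) [AddCommGroup B] (p : ℕ), p.Prime → ∀ s : ℕ → ℕ → B, (∀ a, PInj p (s a)) →
    ∀ b : B, (¬ ∃ c, b = p • c) → ∃ φ : B →+ ZMod p, φ b ≠ 0 ∧ ∀ a, ∃ n, φ (s a n) = 0

/-- TASK NULL.  `pB` is closed (`‖p • b‖ = p * ‖b‖` and `B` is complete).  If a class `v + pB ≠ pB` contained
infinitely many `s n` then `0` would be in the closed set `v + pB`.  So if infinitely many `s n` are not in `pB`
then the set of classes of the `s n` modulo `pB` is infinite (otherwise pigeonhole), and one can choose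
`k` strictly increasing such that `s (k n)` are pairwise incongruent modulo `pB`
(for every finite set of indices there is a later index incongruent to all of these). -/
def TaskNull : Prop :=
  ∀ (B : Type) [NormedAddCommGroup B] [CompleteSpace B],
    (∀ (n : ℕ) (b : B), ‖n • b‖ = n * ‖b‖) → ∀ p : ℕ, p.Prime → ∀ s : ℕ → B,
    Tendsto s atTop (𝓝 0) →
    (∀ᶠ n in atTop, ∃ c, s n = p • c) ∨ ∃ k : ℕ → ℕ, StrictMono k ∧ PInj p (s ∘ k)

/-- TASK LM: local minimality of a locally essential subgroup.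
`U = {g | ‖g.1‖ < 1}`.  Let `σ` be coarser, Hausdorff group topology with `U ∈ 𝓝_σ 0`.  For every `n` there is a `σ`-neighbourhood
`W` with `j • g ∈ U` for `g ∈ W`, `j ≤ n`, so `‖g.1‖ < 1/n` on `W`: the first projection is `σ`-continuous at `0`.
Let `N = ⋂ closure (coe '' W)` over the `σ`-neighbourhoods `W` of `0` (closure in `B × K`).  `N` is a closed subgroup contained in
`0 × K`, and `N ∩ G = 0` since `σ` is coarser and Hausdorff (`closure_τ W ∩ G ⊆ closure_σ W`).  So `N = 0` by the
hypothesis.  If `O` is a `τ`-neighbourhood of `0`, open in `B × K`, which is not a `σ`-neighbourhood then take an ultrafilter on `G`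
containing the complement of `O` and finer than `𝓝_σ 0`: its first projection tends to `0`, its second projection converges to some
`k` by compactness, `(0, k) ∈ N`, so `k = 0`, contradiction.  Hence `𝓝_σ 0 = 𝓝_τ 0`
and `σ = τ` (`IsTopologicalAddGroup.ext`). -/
def TaskLM : Prop :=
  ∀ (B K : Type) [NormedAddCommGroup B] [AddCommGroup K] [TopologicalSpace K]
    [IsTopologicalAddGroup K] [CompactSpace K] [T2Space K],
    (∀ (n : ℕ) (b : B), ‖n • b‖ = n * ‖b‖) → ∀ G : AddSubgroup (B × K),
    (∀ N : AddSubgroup K, IsClosed (N : Set K) → N ≠ ⊥ →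
      ∃ k ∈ N, k ≠ 0 ∧ ((0, k) : B × K) ∈ G) → LocallyMinimal G

/-- TASK ESS.  Take `x ∈ N`, `x ≠ 0`, say `x i₀ ≠ 0`, `p = q i₀`.  The element `z` with `z i = x i` if `q i = p`
and `z i = 0` otherwise is in the closure of `N`: given a finite set `F` of indices there is (Chinese
remainder theorem) `m : ℕ` with `m ≡ 1 mod p^2` and `m ≡ 0` modulo the product of the distinct `(q i)^2`, `i ∈ F`,
`q i ≠ p`; so `m • x` agrees with `z` on `F`.  Now `y = z` if `p • z = 0` and `y = p • z` otherwise. -/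
def TaskEss : Prop :=
  ∀ (I : Type) (q : I → ℕ), (∀ i, (q i).Prime) → ∀ N : AddSubgroup (∀ i, ZMod (q i ^ 2)),
    IsClosed (N : Set (∀ i, ZMod (q i ^ 2))) → N ≠ ⊥ → ∃ y ∈ N, y ≠ 0 ∧ ∀ i, q i • y i = 0

/-- TASK W: weights.  (a) If there were a finite basis then `x ↦ {b | x ∈ b}` would be injective, so `Z` would be finite, hence
discrete, contradiction.  (b), (c) easy. -/
def TaskW : Prop :=
  (∀ (Z : Type) [TopologicalSpace Z] [T2Space Z] [ConnectedSpace Z] [Nontrivial Z],
    Cardinal.aleph0 ≤ R658.CN.weight Z) ∧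
  (∀ (Z : Type) [TopologicalSpace Z] [Subsingleton Z], R658.CN.weight Z < Cardinal.aleph0) ∧
  (∀ κ : Cardinal.{0}, κ < Cardinal.aleph0 → ¬ R658.CN.UlamMeasurable κ)

end R658.SC
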