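import Mathlib
import Pool.Agent.R658.SC.Stmts

/-! # Project MP_d16342_al: assembly -/

namespace R658.SC

open Topology Filter Set

theorem small_mono {B : Type} [AddCommGroup B] {p : ℕ} {J J' : Set (B →+ ZMod p)} (h : J ⊆ J')
    (hJ : Small p J') : Small p J := by
  obtain ⟨s, hs, h2⟩ := hJ
  exact ⟨s, hs, fun φ hφ => h2 φ (h hφ)⟩

theorem small_iUnion {B : Type} [AddCommGroup B] {p : ℕ} {J : ℕ → Set (B →+ ZMod p)}
    (hJ : ∀ n, Small p (J n)) : Small p (⋃ n, J n) := by
  choose s hs h2 using hJ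
  refine ⟨fun a => s (Nat.unpair a).1 (Nat.unpair a).2, fun a => hs _ _, ?_⟩
  intro φ hφ h0
  obtain ⟨n, hn⟩ := mem_iUnion.1 hφ
  obtain ⟨a, ha⟩ := h2 n φ hn h0
  refine ⟨Nat.pair n a, ?_⟩
  simpa using ha

theorem small_union {B : Type} [AddCommGroup B] {p : ℕ} {J J' : Set (B →+ ZMod p)}
    (hJ : Small p J) (hJ' : Small p J') : Small p (J ∪ J') := by
  have : Small p (⋃ n : ℕ, if n = 0 then J else J') := by
    apply small_iUnion
    intro n
    split_ifs
    · exact hJ
    · exact hJ'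
  refine small_mono ?_ this
  rintro φ (h | h)
  · exact mem_iUnion.2 ⟨0, by simpa using h⟩
  · exact mem_iUnion.2 ⟨1, by simpa using h⟩

theorem small_empty {B : Type} [AddCommGroup B] {p : ℕ} (h : ∃ s : ℕ → B, PInj p s) :
    Small p (∅ : Set (B →+ ZMod p)) := by
  obtain ⟨s, hs⟩ := h
  exact ⟨fun _ => s, fun _ => hs, by simp⟩

theorem small_singleton {B : Type} [AddCommGroup B] {p : ℕ} (hp : p.Prime)
    (h : ∃ s : ℕ → B, PInj p s) (φ : B →+ ZMod p) : Small p {φ} := by
  haveI : Fact p.Prime := ⟨hp⟩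
  obtain ⟨s, hs⟩ := h
  by_cases h0 : φ = 0
  · refine ⟨fun _ => s, fun _ => hs, ?_⟩
    intro ψ hψ h1
    exact absurd (hψ.trans h0) h1
  -- a point where `φ` is nonzero
  obtain ⟨b, hb⟩ : ∃ b, φ b ≠ 0 := by
    by_contra hcon
    push Not at hcon
    exact h0 (AddMonoidHom.ext hcon)
  -- pigeonhole
  obtain ⟨c, hc⟩ : ∃ c : ZMod p, {n | φ (s n) = c}.Infinite := by
    by_contra hcon
    push Not at hcon
    have : (univ : Set ℕ).Finite := by
      have h3 : (univ : Set ℕ) = ⋃ c : ZMod p, {n | φ (s n) = c} := by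
        ext n; simp
      rw [h3]
      exact finite_iUnion hcon
    exact infinite_univ this
  obtain ⟨b', hb'⟩ : ∃ b', φ b' = 1 - c := by
    refine ⟨(((1 - c) * (φ b)⁻¹).val) • b, ?_⟩
    rw [map_nsmul, nsmul_eq_mul, ZMod.natCast_zmod_val]
    field_simp
  let k := Nat.nth (fun n => φ (s n) = c)
  have hk : ∀ n, φ (s (k n)) = c := fun n => Nat.nth_mem_of_infinite hc n
  have hkm : StrictMono k := Nat.nth_strictMono hc
  refine ⟨fun _ n => s (k n) + b', ?_, ?_⟩
  · intro _ m n hmn ⟨d, hd⟩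
    refine hs (k m) (k n) (fun h => hmn (hkm.injective h)) ⟨d, ?_⟩
    have hd' : (s (k m) + b') - (s (k n) + b') = p • d := hd
    rw [← hd', add_sub_add_right_eq_sub]
  · intro ψ hψ _
    refine ⟨0, fun n => ?_⟩
    rw [hψ, map_add, hk, hb']
    simp

theorem small_finite {B : Type} [AddCommGroup B] {p : ℕ} (hp : p.Prime)
    (h : ∃ s : ℕ → B, PInj p s) {J : Set (B →+ ZMod p)} (hJ : J.Finite) : Small p J := by
  induction J, hJ using Set.Finite.induction_on with
  | empty => exact small_empty h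
  | @insert a J _ _ ih =>
    rw [insert_eq]
    exact small_union (small_singleton hp h a) ih

theorem small_null (hNull : TaskNull) {B : Type} [NormedAddCommGroup B] [CompleteSpace B]
    (hB : Good B) {p : ℕ} (hp : p.Prime) (s : ℕ → B) (hs : Tendsto s atTop (𝓝 0)) :
    Small p {φ : B →+ ZMod p | ∀ᶠ n in atTop, φ (s n) ≠ 0} := by
  rcases hNull B hB.norm_nsmul p hp s hs with h | ⟨k, hk, hi⟩
  · refine small_mono ?_ (small_empty (hB.inf p hp))
    intro φ hφ
    have hφ' : ∀ᶠ n in atTop, φ (s n) ≠ 0 := hφ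
    obtain ⟨n, ⟨c, hc⟩, hn⟩ := (h.and hφ').exists
    apply hn
    rw [hc, map_nsmul, nsmul_eq_mul]
    simp
  · refine ⟨fun a n => s (k (n + a)), ?_, ?_⟩
    · intro a m n hmn
      exact hi (m + a) (n + a) (by omega)
    · intro φ hφ _
      obtain ⟨N, hN⟩ := eventually_atTop.1 hφ
      refine ⟨N, fun n => hN _ ?_⟩
      have := hk.id_le (n + N)
      simp only [id] at this
      omega

theorem not_small (hDiag : TaskDiag) {B : Type} [AddCommGroup B] {p : ℕ} (hp : p.Prime) (b : B)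
    (h : Small p {φ : B →+ ZMod p | φ b ≠ 0}) : ∃ c, b = p • c := by
  by_contra hcon
  obtain ⟨s, hs, h2⟩ := h
  obtain ⟨φ, hφ, h3⟩ := hDiag B p hp s hs b hcon
  obtain ⟨a, ha⟩ := h2 φ hφ (fun h0 => hφ (by rw [h0]; rfl))
  obtain ⟨n, hn⟩ := h3 a
  exact ha n hn

/-- index set -/
abbrev Idx (B : Type) [AddCommGroup B] : Type := Σ p : Nat.Primes, (B →+ ZMod (p : ℕ))

/-- the compact group -/
abbrev KK (B : Type) [AddCommGroup B] : Type := ∀ i : Idx B, ZMod ((i.1 : ℕ) ^ 2)

/-- reduction modulo `p` -/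
noncomputable def red {B : Type} [AddCommGroup B] (i : Idx B) :
    ZMod ((i.1 : ℕ) ^ 2) →+ ZMod (i.1 : ℕ) :=
  (ZMod.castHom (dvd_pow_self (i.1 : ℕ) two_ne_zero) (ZMod (i.1 : ℕ))).toAddMonoidHom

theorem red_surj {B : Type} [AddCommGroup B] (i : Idx B) : Function.Surjective (red i) := by
  intro x
  obtain ⟨y, hy⟩ := ZMod.castHom_surjective (dvd_pow_self (i.1 : ℕ) two_ne_zero) x
  exact ⟨y, hy⟩

theorem red_eq_zero {B : Type} [AddCommGroup B] (i : Idx B) (y : ZMod ((i.1 : ℕ) ^ 2))
    (hy : (i.1 : ℕ) • y = 0) : red i y = 0 := by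
  have hp : (i.1 : ℕ).Prime := i.1.2
  haveI : NeZero ((i.1 : ℕ) ^ 2) := ⟨pow_ne_zero 2 hp.ne_zero⟩
  have h1 : ((((i.1 : ℕ) * y.val : ℕ)) : ZMod ((i.1 : ℕ) ^ 2)) = 0 := by
    rw [Nat.cast_mul, ZMod.natCast_zmod_val, ← nsmul_eq_mul, hy]
  rw [ZMod.natCast_eq_zero_iff] at h1
  have h1' : (i.1 : ℕ) * (i.1 : ℕ) ∣ (i.1 : ℕ) * y.val := by
    rw [← pow_two]
    exact h1
  have h2 : (i.1 : ℕ) ∣ y.val := Nat.dvd_of_mul_dvd_mul_left hp.pos h1'
  have h3 : red i y = ((y.val : ℕ) : ZMod (i.1 : ℕ)) := by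
    have : red i ((y.val : ℕ) : ZMod ((i.1 : ℕ) ^ 2)) = ((y.val : ℕ) : ZMod (i.1 : ℕ)) := by
      change (ZMod.castHom (dvd_pow_self (i.1 : ℕ) two_ne_zero) (ZMod (i.1 : ℕ))) _ = _
      exact map_natCast _ _
    rw [ZMod.natCast_zmod_val] at this
    exact this
  rw [h3, ZMod.natCast_eq_zero_iff]
  exact h2

/-- the group `G` -/
def GG (B : Type) [AddCommGroup B] (hinf : ∀ p : ℕ, p.Prime → ∃ s : ℕ → B, PInj p s) :
    AddSubgroup (B × KK B) where
  carrier := {x | ∀ p : Nat.Primes,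
    Small (p : ℕ) {φ : B →+ ZMod (p : ℕ) | red ⟨p, φ⟩ (x.2 ⟨p, φ⟩) ≠ φ x.1}}
  zero_mem' := by
    intro p
    refine small_mono ?_ (small_empty (hinf p p.2))
    intro φ hφ
    simp at hφ
  add_mem' := by
    intro x y hx hy p
    refine small_mono ?_ (small_union (hx p) (hy p))
    intro φ hφ
    by_contra hcon
    simp only [mem_union, mem_ofPred_eq, not_or, not_not] at hcon
    apply hφ
    simp only [Prod.snd_add, Prod.fst_add, Pi.add_apply, map_add, hcon.1, hcon.2]
  neg_mem' := by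
    intro x hx p
    refine small_mono ?_ (hx p)
    intro φ hφ hcon
    apply hφ
    simp only [Prod.snd_neg, Prod.fst_neg, Pi.neg_apply, map_neg, hcon]

theorem mem_GG {B : Type} [AddCommGroup B] (hinf : ∀ p : ℕ, p.Prime → ∃ s : ℕ → B, PInj p s)
    (x : B × KK B) : x ∈ GG B hinf ↔ ∀ p : Nat.Primes,
    Small (p : ℕ) {φ : B →+ ZMod (p : ℕ) | red ⟨p, φ⟩ (x.2 ⟨p, φ⟩) ≠ φ x.1} := Iff.rfl

instance compactKK (B : Type) [AddCommGroup B] : CompactSpace (KK B) := by
  haveI : ∀ i : Idx B, NeZero ((i.1 : ℕ) ^ 2) := fun i => ⟨pow_ne_zero 2 i.1.2.ne_zero⟩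
  haveI : ∀ i : Idx B, CompactSpace (ZMod ((i.1 : ℕ) ^ 2)) := fun i => inferInstance
  infer_instance

theorem dense_GG {B : Type} [NormedAddCommGroup B]
    (hinf : ∀ p : ℕ, p.Prime → ∃ s : ℕ → B, PInj p s) :
    Dense (GG B hinf : Set (B × KK B)) := by
  classical
  rintro ⟨b, k⟩
  choose l hl using fun i : Idx B => red_surj i (i.2 b)
  let x : Finset (Idx B) → B × KK B := fun F => (b, fun i => if i ∈ F then k i else l i)
  have hx : Tendsto x atTop (𝓝 (b, k)) := by
    rw [nhds_prod_eq]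
    refine Tendsto.prodMk tendsto_const_nhds ?_
    rw [tendsto_pi_nhds]
    intro i
    refine tendsto_const_nhds.congr' ?_
    filter_upwards [eventually_ge_atTop {i}] with F hF
    rw [if_pos (hF (Finset.mem_singleton_self i))]
  refine mem_closure_of_tendsto hx (Eventually.of_forall fun F => ?_)
  intro p
  refine small_finite p.2 (hinf p p.2) ?_
  refine Set.Finite.subset (s := (fun φ : B →+ ZMod (p : ℕ) => (⟨p, φ⟩ : Idx B)) ⁻¹' (F : Set (Idx B))) ?_ ?_
  · refine Set.Finite.preimage ?_ F.finite_toSet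
    intro φ _ ψ _ h
    simpa using h
  · intro φ hφ
    by_contra hcon
    apply hφ
    have hcon' : (⟨p, φ⟩ : Idx B) ∉ F := hcon
    simp only [x, if_neg hcon']
    exact hl ⟨p, φ⟩

theorem seq_GG (hNull : TaskNull) {B : Type} [NormedAddCommGroup B] [CompleteSpace B]
    (hB : Good B) : SeqComplete (GG B hB.inf) := by
  intro g hg
  -- limit of the first components
  have h1 : CauchySeq (fun n => (g n).1.1) := by
    rw [Metric.cauchySeq_iff]
    intro ε hε
    have hU : {x : GG B hB.inf | ‖x.1.1‖ < ε} ∈ 𝓝 (0 : GG B hB.inf) := by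
      have hc : Continuous (fun x : GG B hB.inf => ‖x.1.1‖) :=
        continuous_norm.comp (continuous_fst.comp continuous_subtype_val)
      have := hc.tendsto 0
      refine this (Iio_mem_nhds ?_)
      simpa using hε
    obtain ⟨N, hN⟩ := hg _ hU
    refine ⟨N, fun m hm n hn => ?_⟩
    have := hN m hm n hn
    rw [dist_eq_norm]
    exact this
  obtain ⟨b, hb⟩ := cauchySeq_tendsto_of_complete h1
  -- limits of the coordinates
  have h2 : ∀ i : Idx B, ∃ c : ZMod ((i.1 : ℕ) ^ 2), ∀ᶠ n in atTop, (g n).1.2 i = c := by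
    intro i
    have hU : {x : GG B hB.inf | x.1.2 i = 0} ∈ 𝓝 (0 : GG B hB.inf) := by
      have hc : Continuous (fun x : GG B hB.inf => x.1.2 i) :=
        (continuous_apply i).comp (continuous_snd.comp continuous_subtype_val)
      have h3 : IsOpen {x : GG B hB.inf | x.1.2 i = 0} :=
        (isOpen_discrete ({0} : Set (ZMod ((i.1 : ℕ) ^ 2)))).preimage hc
      exact h3.mem_nhds rfl
    obtain ⟨N, hN⟩ := hg _ hU
    refine ⟨(g N).1.2 i, ?_⟩
    filter_upwards [eventually_ge_atTop N] with n hn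
    have := hN n hn N le_rfl
    have h4 : (g n).1.2 i - (g N).1.2 i = 0 := this
    exact sub_eq_zero.1 h4
  choose k hk using h2
  have hmem : ((b, k) : B × KK B) ∈ GG B hB.inf := by
    intro p
    have h3 : Tendsto (fun n => (g n).1.1 - b) atTop (𝓝 0) := by
      have := hb.sub_const b
      simpa using this
    have h4 := small_null hNull hB p.2 _ h3
    have h5 : Small (p : ℕ) (⋃ n, {φ : B →+ ZMod (p : ℕ) |
        red ⟨p, φ⟩ ((g n).1.2 ⟨p, φ⟩) ≠ φ (g n).1.1}) := small_iUnion fun n => (g n).2 p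
    refine small_mono ?_ (small_union h4 h5)
    intro φ hφ
    by_contra hcon
    rw [mem_union, not_or] at hcon
    obtain ⟨hc1, hc2⟩ := hcon
    apply hc1
    simp only [mem_iUnion, mem_ofPred_eq, not_exists, not_not] at hc2
    change ∀ᶠ n in atTop, φ ((g n).1.1 - b) ≠ 0
    filter_upwards [hk ⟨p, φ⟩] with n hn
    rw [map_sub, ← hc2 n, hn, sub_ne_zero]
    exact hφ
  refine ⟨⟨(b, k), hmem⟩, ?_⟩
  rw [tendsto_subtype_rng]
  change Tendsto (fun n => (g n).1) atTop (𝓝 (b, k))
  rw [nhds_prod_eq]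
  refine Tendsto.prodMk hb ?_
  rw [tendsto_pi_nhds]
  intro i
  refine tendsto_const_nhds.congr' ?_
  filter_upwards [hk i] with n hn
  exact hn.symm

theorem conn_GG (hDiag : TaskDiag) {B : Type} [NormedAddCommGroup B] (hB : Good B) :
    connectedComponent (0 : GG B hB.inf) = {0} := by
  refine Subset.antisymm ?_ (by simpa using mem_connectedComponent)
  intro x hx
  have h2 : ∀ i : Idx B, x.1.2 i = 0 := by
    intro i
    have hc : Continuous (fun x : GG B hB.inf => x.1.2 i) :=
      (continuous_apply i).comp (continuous_snd.comp continuous_subtype_val)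
    have h3 : ((fun x : GG B hB.inf => x.1.2 i) '' connectedComponent (0 : GG B hB.inf)).Subsingleton :=
      (isPreconnected_connectedComponent.image _ hc.continuousOn).subsingleton
    exact h3 ⟨x, hx, rfl⟩ ⟨0, mem_connectedComponent, rfl⟩
  have h3 : x.1.1 = 0 := by
    apply hB.inter
    intro p hp
    apply not_small hDiag hp
    have := x.2 ⟨p, hp⟩
    refine small_mono ?_ this
    intro φ hφ
    simp only [mem_ofPred_eq] at hφ ⊢
    rw [h2]
    rw [map_zero]
    exact hφ.symm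
  rw [mem_singleton_iff]
  apply Subtype.ext
  apply Prod.ext
  · exact h3
  · funext i
    exact h2 i

theorem lm_GG (hLM : TaskLM) (hEss : TaskEss) {B : Type} [NormedAddCommGroup B] (hB : Good B) :
    LocallyMinimal (GG B hB.inf) := by
  apply hLM B (KK B) hB.norm_nsmul
  intro N hN h0
  obtain ⟨y, hy, hy0, hy1⟩ := hEss (Idx B) (fun i => (i.1 : ℕ)) (fun i => i.1.2) N hN h0
  refine ⟨y, hy, hy0, ?_⟩
  intro p
  refine small_mono ?_ (small_empty (hB.inf p p.2))
  intro φ hφ
  apply hφ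
  rw [map_zero]
  exact red_eq_zero _ _ (hy1 _)

theorem main (hL1 : TaskL1) (hDiag : TaskDiag) (hNull : TaskNull) (hLM : TaskLM)
    (hEss : TaskEss) (hW : TaskW) :
    ∃ (G H : Type) (_ : AddCommGroup G) (_ : TopologicalSpace G) (_ : IsTopologicalAddGroup G)
      (_ : T2Space G) (_ : AddCommGroup H) (_ : UniformSpace H) (_ : IsUniformAddGroup H)
      (_ : T2Space H) (_ : CompleteSpace H) (i : G →+ H),
      IsEmbedding i ∧ DenseRange i ∧ SeqComplete G ∧ LocallyMinimal G ∧
      ¬ R658.CN.UlamMeasurable (R658.CN.weight (connectedComponent (0 : G))) ∧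
      R658.CN.weight (connectedComponent (0 : G)) ≠ R658.CN.weight (connectedComponent (0 : H)) ∧
      i '' connectedComponent (0 : G) ≠ connectedComponent (0 : H) := by
  let B := MeasureTheory.Lp ℤ 1 (MeasureTheory.volume : MeasureTheory.Measure unitInterval)
  have hB : Good B := hL1
  haveI : CompleteSpace B := inferInstance
  letI uK : UniformSpace (KK B) := IsTopologicalAddGroup.rightUniformSpace (KK B)
  haveI : IsUniformAddGroup (KK B) := isUniformAddGroup_of_addCommGroup
  haveI cK : CompleteSpace (KK B) := by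
    haveI := compactKK B
    infer_instance
  obtain ⟨hW1, hW2, hW3⟩ := hW
  have hGc := conn_GG hDiag hB
  haveI hsub : Subsingleton (connectedComponent (0 : GG B hB.inf)) := by
    rw [hGc]
    infer_instance
  have hw1 := hW2 (connectedComponent (0 : GG B hB.inf))
  obtain ⟨b, hb0, hb⟩ := hB.conn
  have hbc : ((b, 0) : B × KK B) ∈ connectedComponent (0 : B × KK B) := by
    have hcont : Continuous (fun x : B => ((x, 0) : B × KK B)) := by fun_prop
    have := (isPreconnected_connectedComponent (x := (0 : B))).image _ hcont.continuousOn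
    exact this.subset_connectedComponent ⟨0, mem_connectedComponent, rfl⟩ ⟨b, hb, rfl⟩
  haveI : Nontrivial (connectedComponent (0 : B × KK B)) := by
    refine ⟨⟨(b, 0), hbc⟩, ⟨0, mem_connectedComponent⟩, ?_⟩
    intro h
    have := congrArg (fun x => x.1.1) h
    exact hb0 this
  haveI : ConnectedSpace (connectedComponent (0 : B × KK B)) :=
    isConnected_iff_connectedSpace.1 isConnected_connectedComponent
  have hw2 := hW1 (connectedComponent (0 : B × KK B))
  refine ⟨GG B hB.inf, B × KK B, inferInstance, inferInstance, inferInstance, inferInstance,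
    inferInstance, inferInstance, inferInstance, inferInstance, inferInstance,
    (GG B hB.inf).subtype, IsEmbedding.subtypeVal, ?_, seq_GG hNull hB, lm_GG hLM hEss hB,
    hW3 _ hw1, (hw1.trans_le hw2).ne, ?_⟩
  · have := dense_GG (B := B) hB.inf
    rw [DenseRange]
    have h2 : range (GG B hB.inf).subtype = (GG B hB.inf : Set (B × KK B)) := by
      ext x; simp
    rw [h2]
    exact this
  · rw [hGc]
    intro h
    rw [← h] at hbc
    obtain ⟨x, hx, hx2⟩ := hbc
    rw [mem_singleton_iff] at hx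
    rw [hx, map_zero] at hx2
    exact hb0 (congrArg Prod.fst hx2).symm

end R658.SC
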