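import Mathlib
import Pool.Agent.R658.SC.Stmts

/-! # Task DIAG of project MP_d16342_al -/

namespace R658.SC

open Topology Filter Set

theorem diagV {k V : Type} [Field k] [Finite k] [AddCommGroup V] [Module k V] (v : ℕ → ℕ → V)
    (hinj : ∀ a, Function.Injective (v a)) (b : V) (hb : b ≠ 0) :
    ∃ f : V →ₗ[k] k, f b ≠ 0 ∧ ∀ a, ∃ n, f (v a n) = 0 := by
  classical
  have step : ∀ (a : ℕ) (F : {F : Submodule k V // F.FG ∧ b ∉ F}),
      ∃ F' : {F : Submodule k V // F.FG ∧ b ∉ F}, F.1 ≤ F'.1 ∧ ∃ n, v a n ∈ F'.1 := by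
    rintro a ⟨F, hF, hbF⟩
    have hfg : (F ⊔ Submodule.span k {b}).FG := hF.sup (Submodule.fg_span_singleton _)
    have hmf : Module.Finite k (F ⊔ Submodule.span k {b} : Submodule k V) :=
      Module.Finite.iff_fg.2 hfg
    have hfin : Finite (F ⊔ Submodule.span k {b} : Submodule k V) :=
      Module.finite_of_finite k
    obtain ⟨n, hn⟩ : ∃ n, v a n ∉ F ⊔ Submodule.span k {b} := by
      by_contra hcon
      push Not at hcon
      have h1 : (Set.range (v a)).Finite := by
        apply (Set.toFinite ((F ⊔ Submodule.span k {b} : Submodule k V) : Set V)).subset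
        rintro _ ⟨n, rfl⟩
        exact hcon n
      exact Set.infinite_range_of_injective (hinj a) h1
    refine ⟨⟨F ⊔ Submodule.span k {v a n},
      hF.sup (Submodule.fg_span_singleton _), ?_⟩, le_sup_left, n, ?_⟩
    · intro hmem
      rw [Submodule.mem_sup] at hmem
      obtain ⟨f, hf, w, hw, hfw⟩ := hmem
      rw [Submodule.mem_span_singleton] at hw
      obtain ⟨c, rfl⟩ := hw
      by_cases hc : c = 0
      · rw [hc, zero_smul, add_zero] at hfw
        exact hbF (hfw ▸ hf)
      · apply hn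
        have h1 : v a n = c⁻¹ • (b - f) := by
          rw [← hfw, add_sub_cancel_left, smul_smul, inv_mul_cancel₀ hc, one_smul]
        rw [h1]
        apply Submodule.smul_mem
        apply Submodule.sub_mem
        · exact Submodule.mem_sup_right (Submodule.mem_span_singleton_self _)
        · exact Submodule.mem_sup_left hf
    · exact Submodule.mem_sup_right (Submodule.mem_span_singleton_self _)
  choose nxt hnxt1 hnxt2 using step
  have hb0 : b ∉ (⊥ : Submodule k V) := by
    rw [Submodule.mem_bot]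
    exact hb
  let FF : ℕ → {F : Submodule k V // F.FG ∧ b ∉ F} := fun a =>
    Nat.rec ⟨⊥, Submodule.fg_bot, hb0⟩ (fun a F => nxt a F) a
  have hFF : ∀ a, FF (a + 1) = nxt a (FF a) := fun a => rfl
  have hmono : Monotone fun a => (FF a).1 := by
    apply monotone_nat_of_le_succ
    intro a
    rw [hFF]
    exact hnxt1 a (FF a)
  have hsup : b ∉ ⨆ a, (FF a).1 := by
    rw [Submodule.mem_iSup_of_directed _ hmono.directed_le]
    rintro ⟨a, ha⟩
    exact (FF a).2.2 ha
  obtain ⟨f, hf1, hf2⟩ := Submodule.exists_le_ker_of_notMem hsup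
  refine ⟨f, hf1, ?_⟩
  intro a
  obtain ⟨n, hn⟩ := hnxt2 a (FF a)
  refine ⟨n, ?_⟩
  have h1 : v a n ∈ ⨆ a, (FF a).1 := by
    apply Submodule.mem_iSup_of_mem (a + 1)
    rw [hFF]
    exact hn
  exact hf2 h1

theorem taskDiag : TaskDiag := by
  intro B _ p hp s hs b hb
  classical
  have : Fact p.Prime := ⟨hp⟩
  let P : AddSubgroup B := (nsmulAddMonoidHom (α := B) p).range
  have hP : ∀ x : B, x ∈ P ↔ ∃ c, x = p • c := by
    intro x
    constructor
    · rintro ⟨c, hc⟩
      exact ⟨c, hc.symm⟩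
    · rintro ⟨c, hc⟩
      exact ⟨c, hc.symm⟩
  have hzero : ∀ x : B ⧸ P, p • x = 0 := by
    intro x
    obtain ⟨y, rfl⟩ := QuotientAddGroup.mk_surjective x
    rw [← QuotientAddGroup.mk_nsmul, QuotientAddGroup.eq_zero_iff]
    exact (hP _).2 ⟨y, rfl⟩
  let hmod : Module (ZMod p) (B ⧸ P) := AddCommGroup.zmodModule hzero
  let π : B →+ B ⧸ P := QuotientAddGroup.mk' P
  have hinj : ∀ a, Function.Injective (fun n => π (s a n)) := by
    intro a m n hmn
    by_contra hne
    apply hs a m n hne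
    have h1 : π (s a m - s a n) = 0 := by
      rw [map_sub]
      exact sub_eq_zero.2 hmn
    exact (hP _).1 ((QuotientAddGroup.eq_zero_iff _).1 h1)
  have hb0 : π b ≠ 0 := by
    intro h
    exact hb ((hP _).1 ((QuotientAddGroup.eq_zero_iff _).1 h))
  obtain ⟨f, hf1, hf2⟩ := diagV (k := ZMod p) (fun a n => π (s a n)) hinj (π b) hb0
  exact ⟨f.toAddMonoidHom.comp π, hf1, hf2⟩

end R658.SC
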