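import Mathlib
import Pool.Agent.R658.SC.Stmts

/-! # Task ESS of project MP_d16342_al -/

namespace R658.SC

open Topology Filter Set

theorem taskEss : TaskEss := by
  intro I q hq N hN hne
  classical
  obtain ⟨x, hx, hx0⟩ := (AddSubgroup.ne_bot_iff_exists_ne_zero).1 hne |>.elim
    (fun a ha => (⟨a.1, a.2, fun h => ha (Subtype.ext h)⟩ : ∃ x, x ∈ N ∧ x ≠ 0))
  obtain ⟨i₀, hi₀⟩ : ∃ i, x i ≠ 0 := by
    by_contra hcon
    push Not at hcon
    exact hx0 (funext hcon)
  set p := q i₀ with hp
  set z : ∀ i, ZMod (q i ^ 2) := fun i => if q i = p then x i else 0 with hz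
  have hzN : z ∈ N := by
    by_contra hcon
    have hopen : IsOpen ((N : Set (∀ i, ZMod (q i ^ 2)))ᶜ) := hN.isOpen_compl
    obtain ⟨F, u, hu, hsub⟩ := isOpen_pi_iff.1 hopen z hcon
    set M := ∏ a ∈ F.filter (fun a => q a ≠ p), (q a) ^ 2 with hM
    have hcop : Nat.Coprime (p ^ 2) M := by
      apply Nat.Coprime.prod_right
      intro a ha
      rw [Finset.mem_filter] at ha
      apply Nat.Coprime.pow
      exact (Nat.coprime_primes (hq i₀) (hq a)).2 (Ne.symm ha.2)
    obtain ⟨m, hm1, hm2⟩ := Nat.chineseRemainder hcop 1 0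
    have hmem : m • x ∈ (N : Set (∀ i, ZMod (q i ^ 2)))ᶜ := by
      apply hsub
      intro a ha
      have ha' := hu a ha
      have : (m • x) a = z a := by
        rw [Pi.smul_apply, nsmul_eq_mul]
        by_cases h : q a = p
        · have h1 : ((m : ℕ) : ZMod (q a ^ 2)) = ((1 : ℕ) : ZMod (q a ^ 2)) := by
            rw [ZMod.natCast_eq_natCast_iff, h]
            exact hm1
          rw [h1, hz]
          simp only [h, if_true, Nat.cast_one, one_mul]
        · have h1 : ((m : ℕ) : ZMod (q a ^ 2)) = 0 := by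
            rw [ZMod.natCast_eq_zero_iff]
            have h2 : M ∣ m := (Nat.modEq_zero_iff_dvd).1 hm2
            refine dvd_trans ?_ h2
            exact Finset.dvd_prod_of_mem (fun a => (q a) ^ 2) (Finset.mem_filter.2 ⟨ha, h⟩)
          rw [h1, hz]
          simp only [h, if_false, zero_mul]
      rw [this]
      exact ha'.2
    exact hmem (N.nsmul_mem hx m)
  by_cases hall : ∀ i, q i • z i = 0
  · refine ⟨z, hzN, ?_, hall⟩
    intro h
    apply hi₀
    have h2 : z i₀ = 0 := congrFun h i₀
    have h3 : z i₀ = x i₀ := if_pos rfl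
    rw [← h3, h2]
  · push Not at hall
    obtain ⟨i, hi⟩ := hall
    refine ⟨p • z, N.nsmul_mem hzN p, ?_, ?_⟩
    · intro h
      have h1 := congrFun h i
      rw [Pi.smul_apply, Pi.zero_apply] at h1
      by_cases hqi : q i = p
      · have h2 : q i • z i = p • z i := congrArg (fun n : ℕ => n • z i) hqi
        exact hi (h2.trans h1)
      · apply hi
        rw [hz]
        simp only [hqi, if_false, smul_zero]
    · intro j
      by_cases hqj : q j = p
      · have h2 : p • z j = q j • z j := congrArg (fun n : ℕ => n • z j) hqj.symm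
        rw [Pi.smul_apply, h2, ← mul_smul, ← sq, nsmul_eq_mul, ZMod.natCast_self, zero_mul]
      · rw [Pi.smul_apply, hz]
        simp only [hqj, if_false, smul_zero]

end R658.SC
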