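import Mathlib
import Pool.Agent.R658.SC.Stmts

/-! # Project MP_d16342_al, task L1: the group `L^1([0,1], Z)` is `Good`. -/

namespace R658.SC

open MeasureTheory Topology Filter Set
open scoped ENNReal symmDiff

/-- the group `L^1([0,1], Z)` -/
abbrev LZ : Type := MeasureTheory.Lp ℤ 1 (MeasureTheory.volume : MeasureTheory.Measure unitInterval)

theorem coeFn_nsmul_LZ (n : ℕ) (b : LZ) :
    (⇑(n • b) : unitInterval → ℤ) =ᵐ[volume] fun x => n * b x := by
  induction n with
  | zero =>
    rw [zero_smul]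
    filter_upwards [Lp.coeFn_zero ℤ 1 (volume : Measure unitInterval)] with x hx
    rw [hx]; simp
  | succ n ih =>
    rw [succ_nsmul]
    filter_upwards [ih, Lp.coeFn_add (n • b) b] with x h1 h2
    rw [h2, Pi.add_apply, h1]
    push_cast
    ring

theorem norm_nsmul_LZ (n : ℕ) (b : LZ) : ‖n • b‖ = n * ‖b‖ := by
  rw [Lp.norm_def, Lp.norm_def, eLpNorm_congr_ae (coeFn_nsmul_LZ n b)]
  rw [eLpNorm_one_eq_lintegral_enorm, eLpNorm_one_eq_lintegral_enorm]
  have h : ∀ x, ‖(n : ℤ) * b x‖ₑ = (n : ℝ≥0∞) * ‖b x‖ₑ := by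
    intro x
    rw [enorm_mul]
    congr 1
    simp [enorm_eq_nnnorm]
  simp_rw [h]
  rw [lintegral_const_mul' _ _ (by simp), ENNReal.toReal_mul]
  simp

theorem inter_LZ (b : LZ) (h : ∀ p : ℕ, p.Prime → ∃ c, b = p • c) : b = 0 := by
  choose! c hc using h
  have h1 : ∀ p : {p : ℕ // p.Prime}, ∀ᵐ x ∂(volume : Measure unitInterval),
      b x = (p : ℕ) * c p x := by
    intro p
    have h2 := coeFn_nsmul_LZ p (c p)
    rw [← hc p p.2] at h2
    exact h2
  rw [← ae_all_iff] at h1
  apply Lp.ext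
  filter_upwards [h1, Lp.coeFn_zero ℤ 1 (volume : Measure unitInterval)] with x hx h0
  rw [h0, Pi.zero_apply]
  by_contra hne
  obtain ⟨p, hp1, hp2⟩ := Nat.exists_infinite_primes ((b x).natAbs + 1)
  have h3 : ((p : ℕ) : ℤ) ∣ b x := ⟨c p x, hx ⟨p, hp2⟩⟩
  have h4 : p ∣ (b x).natAbs := by
    exact Int.natCast_dvd.mp h3
  have h5 := Nat.le_of_dvd (Int.natAbs_pos.mpr hne) h4
  omega

/-- the path -/
noncomputable def gam (t : unitInterval) : LZ :=
  indicatorConstLp 1 (measurableSet_Iic (a := t)) (measure_ne_top _ _) (1 : ℤ)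

theorem vol_symmDiff (s t : unitInterval) :
    (volume : Measure unitInterval) (Iic s ∆ Iic t) ≤ ENNReal.ofReal |(s : ℝ) - t| := by
  have : Iic s ∆ Iic t ⊆ Ioc s t ∪ Ioc t s := by
    intro x hx
    rcases hx with ⟨h1, h2⟩ | ⟨h1, h2⟩
    · right
      simp only [mem_Iic, not_le] at h1 h2
      exact ⟨h2, h1⟩
    · left
      simp only [mem_Iic, not_le] at h1 h2
      exact ⟨h2, h1⟩
  rcases le_total s t with hst | hst
  · have h1 : Ioc t s = ∅ := Ioc_eq_empty (not_lt.mpr hst)
    rw [h1, union_empty] at this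
    refine (measure_mono this).trans ?_
    rw [unitInterval.volume_Ioc]
    apply ENNReal.ofReal_le_ofReal
    rw [abs_sub_comm]
    exact le_abs_self _
  · have h1 : Ioc s t = ∅ := Ioc_eq_empty (not_lt.mpr hst)
    rw [h1, empty_union] at this
    refine (measure_mono this).trans ?_
    rw [unitInterval.volume_Ioc]
    apply ENNReal.ofReal_le_ofReal
    exact le_abs_self _

theorem continuous_gam : Continuous gam := by
  unfold gam
  apply continuous_indicatorConstLp_set (by simp)
  intro t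
  have h1 : Tendsto (fun s : unitInterval => ENNReal.ofReal |(s : ℝ) - t|) (𝓝 t) (𝓝 0) := by
    have h2 : Continuous (fun s : unitInterval => ENNReal.ofReal |(s : ℝ) - t|) := by
      apply ENNReal.continuous_ofReal.comp
      fun_prop
    have h3 := h2.tendsto t
    simpa using h3
  exact tendsto_of_tendsto_of_tendsto_of_le_of_le tendsto_const_nhds h1
    (fun _ => by simp) (fun s => vol_symmDiff s t)

theorem norm_gam (t : unitInterval) : ‖gam t‖ = (t : ℝ) := by
  unfold gam
  rw [norm_indicatorConstLp (by simp) (by simp)]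
  simp [measureReal_def, ENNReal.toReal_ofReal t.2.1]

theorem conn_LZ : ∃ b : LZ, b ≠ 0 ∧ b ∈ connectedComponent (0 : LZ) := by
  refine ⟨gam 1, ?_, ?_⟩
  · intro h
    have := norm_gam 1
    rw [h] at this
    simp at this
  · have h0 : gam 0 = 0 := by
      have := norm_gam 0
      rw [← norm_eq_zero]
      simpa using this
    have h1 : IsPreconnected (range gam) := isPreconnected_range continuous_gam
    exact h1.subset_connectedComponent ⟨0, h0⟩ ⟨1, rfl⟩

/-- the points -/
noncomputable def pt (n : ℕ) : unitInterval :=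
  ⟨1 / ((n : ℝ) + 1), by positivity, by
    rw [div_le_one (by positivity)]
    have : (0 : ℝ) ≤ n := Nat.cast_nonneg n
    linarith⟩

theorem pt_lt {m n : ℕ} (h : m < n) : pt n < pt m := by
  show (1 : ℝ) / ((n : ℝ) + 1) < 1 / ((m : ℝ) + 1)
  apply one_div_lt_one_div_of_lt (by positivity)
  have : (m : ℝ) < n := by exact_mod_cast h
  linarith

theorem gam_sub_ne (p : ℕ) (hp : p.Prime) {s t : unitInterval} (hst : s < t) :
    ¬ ∃ c : LZ, gam t - gam s = p • c := by
  rintro ⟨c, hc⟩
  have h1 := coeFn_nsmul_LZ p c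
  rw [← hc] at h1
  have h2 : ∀ᵐ x ∂(volume : Measure unitInterval), x ∉ Ioc s t := by
    have a1 := indicatorConstLp_coeFn_mem (p := 1) (hs := measurableSet_Iic (a := t))
      (hμs := measure_ne_top (volume : Measure unitInterval) _) (c := (1 : ℤ))
    have a2 := indicatorConstLp_coeFn_notMem (p := 1) (hs := measurableSet_Iic (a := s))
      (hμs := measure_ne_top (volume : Measure unitInterval) _) (c := (1 : ℤ))
    filter_upwards [h1, Lp.coeFn_sub (gam t) (gam s), a1, a2] with x b1 b2 b3 b4 hx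
    have b5 := b3 hx.2
    have b6 := b4 (by simpa using hx.1)
    rw [b1, Pi.sub_apply] at b2
    unfold gam at b2
    rw [b5, b6] at b2
    have : ((p : ℕ) : ℤ) ∣ 1 := ⟨c x, by rw [b2]; ring⟩
    have h3 := Int.natCast_dvd.mp this
    simp at h3
    exact hp.one_lt.ne' h3
  rw [ae_iff] at h2
  simp only [not_not] at h2
  have h3 : (volume : Measure unitInterval) (Ioc s t) = 0 := h2
  rw [unitInterval.volume_Ioc, ENNReal.ofReal_eq_zero] at h3
  have h4 : (s : ℝ) < t := hst
  linarith

theorem inf_LZ (p : ℕ) (hp : p.Prime) : ∃ s : ℕ → LZ, PInj p s := by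
  refine ⟨fun n => gam (pt n), ?_⟩
  intro m n hmn
  rcases lt_or_gt_of_ne hmn with h | h
  · exact gam_sub_ne p hp (pt_lt h)
  · rintro ⟨c, hc⟩
    apply gam_sub_ne p hp (pt_lt h)
    refine ⟨-c, ?_⟩
    rw [smul_neg, ← hc]
    abel

theorem taskL1 : TaskL1 where
  norm_nsmul := norm_nsmul_LZ
  inter := inter_LZ
  conn := conn_LZ
  inf := inf_LZ

end R658.SC
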