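import Mathlib
import Pool.Agent.R658.SC.Stmts

/-! # Task LM of project MP_d16342_al -/

namespace R658.SC

open Topology Filter Set

theorem taskLM : TaskLM := by
  intro B K _ _ _ _ _ _ hnorm G hess
  classical
  refine ⟨{g : G | ‖g.1.1‖ < 1}, ?_, ?_⟩
  · have hc : Continuous fun g : G => ‖g.1.1‖ := by fun_prop
    apply hc.continuousAt.eventually_lt_const
    simp
  intro σ hσ hσ2 hle hU
  -- the first projection tends to zero
  have hfst : Tendsto (fun g : G => g.1.1) (@nhds G σ 0) (𝓝 0) := by
    rw [Metric.tendsto_nhds]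
    intro ε hε
    obtain ⟨n, hn⟩ := exists_nat_gt (1 / ε)
    have hn0 : (0 : ℝ) < n := lt_trans (by positivity) hn
    have hcont : @Continuous G G σ σ (fun g => n • g) := by
      letI := σ
      exact continuous_nsmul n
    have h1 : Tendsto (fun g : G => n • g) (@nhds G σ 0) (@nhds G σ 0) := by
      have := @Continuous.tendsto G G σ σ _ hcont 0
      rwa [smul_zero] at this
    filter_upwards [h1 hU] with g hg
    have h2 : ‖(n • g).1.1‖ < 1 := hg
    have h3 : (n • g).1.1 = n • g.1.1 := by
      rw [AddSubgroup.coe_nsmul, Prod.smul_fst]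
    rw [h3, hnorm] at h2
    rw [dist_zero_right]
    rw [div_lt_iff₀ hε] at hn
    by_contra hcon
    rw [not_lt] at hcon
    nlinarith
  -- the closed subgroup
  let N : AddSubgroup K :=
    { carrier := {k | ∀ W ∈ @nhds G σ 0, ((0, k) : B × K) ∈ closure ((Subtype.val : G → B × K) '' W)}
      zero_mem' := by
        intro W hW
        apply subset_closure
        exact ⟨0, @mem_of_mem_nhds G σ _ _ hW, rfl⟩
      add_mem' := by
        intro k l hk hl W hW
        have hadd : Tendsto (fun z : G × G => z.1 + z.2) (@nhds G σ 0 ×ˢ @nhds G σ 0)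
            (@nhds G σ 0) := by
          have h1 : @ContinuousAdd G σ _ := hσ.toContinuousAdd
          have h2 := @ContinuousAdd.continuous_add G σ _ h1
          have h3 := @Continuous.tendsto (G × G) G (@instTopologicalSpaceProd G G σ σ) σ _ h2 (0, 0)
          rw [@nhds_prod_eq G G σ σ] at h3
          simpa using h3
        obtain ⟨W₁, hW₁, hW₁'⟩ := (Filter.mem_prod_same_iff).1 (hadd hW)
        have h1 : ((0, k + l) : B × K) = (0, k) + (0, l) := by simp
        change ((0, k + l) : B × K) ∈ _
        rw [h1]
        apply map_mem_closure₂ (f := fun x y : B × K => x + y)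
          (s := (Subtype.val : G → B × K) '' W₁) (t := (Subtype.val : G → B × K) '' W₁)
          (by exact continuous_add) (hk W₁ hW₁) (hl W₁ hW₁)
        rintro _ ⟨a, ha, rfl⟩ _ ⟨b, hb, rfl⟩
        exact ⟨a + b, hW₁' (show (a, b) ∈ W₁ ×ˢ W₁ from ⟨ha, hb⟩), rfl⟩
      neg_mem' := by
        intro k hk W hW
        have hneg : Tendsto (fun z : G => -z) (@nhds G σ 0) (@nhds G σ 0) := by
          have h1 : @ContinuousNeg G σ _ := hσ.toContinuousNeg
          have h2 := @ContinuousNeg.continuous_neg G σ _ h1
          have h3 := @Continuous.tendsto G G σ σ _ h2 0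
          rwa [neg_zero] at h3
        have h1 := hk _ (hneg hW)
        have h2 : ((0, -k) : B × K) = -((0, k) : B × K) := by simp
        change ((0, -k) : B × K) ∈ _
        rw [h2]
        have h3 := map_mem_closure (continuous_neg (G := B × K)) h1 (t := (Subtype.val : G → B × K) '' W)
          (by
            rintro _ ⟨a, ha, rfl⟩
            exact ⟨-a, ha, rfl⟩)
        exact h3 }
  have hNclosed : IsClosed (N : Set K) := by
    have h1 : (N : Set K) = ⋂ W ∈ @nhds G σ 0,
        (fun k : K => ((0, k) : B × K)) ⁻¹' closure ((Subtype.val : G → B × K) '' W) := by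
      ext k
      simp only [Set.mem_iInter]
      rfl
    rw [h1]
    apply isClosed_biInter
    intro W _
    exact isClosed_closure.preimage (by fun_prop)
  have hN : N = ⊥ := by
    by_contra hne
    obtain ⟨k, hk, hk0, hkG⟩ := hess N hNclosed hne
    have hg : (⟨(0, k), hkG⟩ : G) ≠ 0 := by
      intro h
      apply hk0
      have := congrArg (fun g : G => g.1.2) h
      exact this
    obtain ⟨U₁, U₂, hU₁, hU₂, hm₁, hm₂, hd⟩ := @t2_separation G σ hσ2 _ _ hg
    have h1 : @IsOpen G instTopologicalSpaceSubtype U₁ := hle _ hU₁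
    obtain ⟨O, hO, hOU⟩ := isOpen_induced_iff.1 h1
    have h2 : ((0, k) : B × K) ∈ O := by
      have : (⟨(0, k), hkG⟩ : G) ∈ Subtype.val ⁻¹' O := by rw [hOU]; exact hm₁
      exact this
    have h3 := hk U₂ (@IsOpen.mem_nhds G σ 0 U₂ hU₂ hm₂)
    obtain ⟨_, hw1, w, hw2, rfl⟩ := mem_closure_iff.1 h3 O hO h2
    have h4 : w ∈ U₁ := by rw [← hOU]; exact hw1
    exact Set.disjoint_left.1 hd h4 hw2
  -- comparison of the neighbourhoods of zero
  have hnhds : @nhds G σ 0 = @nhds G instTopologicalSpaceSubtype (0 : G) := by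
    apply le_antisymm
    · rw [Filter.le_iff_ultrafilter]
      intro u hu
      rw [show @nhds G instTopologicalSpaceSubtype (0 : G) =
        comap Subtype.val (𝓝 ((0 : G) : B × K)) from nhds_induced _ _]
      rw [← Filter.map_le_iff_le_comap]
      have h1 : Tendsto (fun g : G => g.1.1) (u : Filter G) (𝓝 0) := hfst.mono_left hu
      obtain ⟨k, -, hk⟩ := (isCompact_univ (X := K)).ultrafilter_le_nhds
        (u.map (fun g : G => g.1.2)) (by simp)
      have h2 : Tendsto (fun g : G => g.1.2) (u : Filter G) (𝓝 k) := hk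
      have h3 : Tendsto (fun g : G => (g.1 : B × K)) (u : Filter G) (𝓝 (0, k)) := by
        have := h1.prodMk_nhds h2
        exact this
      have h4 : k ∈ N := by
        intro W hW
        apply mem_closure_of_tendsto h3
        filter_upwards [hu hW] with g hg
        exact ⟨g, hg, rfl⟩
      rw [hN, AddSubgroup.mem_bot] at h4
      rw [h4] at h3
      exact h3
    · exact _root_.nhds_mono hle
  exact @IsTopologicalAddGroup.ext G _ σ instTopologicalSpaceSubtype hσ
    (inferInstance : @IsTopologicalAddGroup G instTopologicalSpaceSubtype _) hnhds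

end R658.SC
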