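import Mathlib
import Pool.Agent.R658.SC.Stmts

/-! # Task NULL of project MP_d16342_al -/

namespace R658.SC

open Topology Filter Set

theorem taskNull : TaskNull := by
  intro B _ _ hnorm p hp s hs
  classical
  by_cases hev : ∀ᶠ n in atTop, ∃ c, s n = p • c
  · exact Or.inl hev
  right
  have hp0 : (0 : ℝ) < p := by exact_mod_cast hp.pos
  have hdist : ∀ c c' : B, dist (p • c) (p • c') = p * dist c c' := by
    intro c c'
    rw [dist_eq_norm, dist_eq_norm, ← smul_sub, hnorm]
  have hclosed : IsClosed (Set.range fun c : B => p • c) := by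
    have h1 : AntilipschitzWith (⟨(p : ℝ)⁻¹, by positivity⟩ : NNReal) (fun c : B => p • c) := by
      apply AntilipschitzWith.of_le_mul_dist
      intro c c'
      change dist c c' ≤ (p : ℝ)⁻¹ * dist (p • c) (p • c')
      rw [hdist, ← mul_assoc, inv_mul_cancel₀ hp0.ne', one_mul]
    have h2 : LipschitzWith (⟨(p : ℝ), hp0.le⟩ : NNReal) (fun c : B => p • c) := by
      apply LipschitzWith.of_dist_le_mul
      intro c c'
      change dist (p • c) (p • c') ≤ (p : ℝ) * dist c c'
      rw [hdist]
    exact h1.isClosed_range h2.uniformContinuous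
  have hfr : {n | ¬ ∃ c, s n = p • c}.Infinite := by
    rw [← Nat.frequently_atTop_iff_infinite]
    exact Filter.not_eventually.1 hev
  have hfin : ∀ x, (¬ ∃ c, s x = p • c) → {y | ∃ c, s x - s y = p • c}.Finite := by
    intro x hx
    by_contra hcon
    have h1 : ∃ᶠ y in atTop, s x - s y ∈ Set.range fun c : B => p • c := by
      rw [Nat.frequently_atTop_iff_infinite]
      have : {y | s x - s y ∈ Set.range fun c : B => p • c} = {y | ∃ c, s x - s y = p • c} := by
        ext y
        constructor
        · rintro ⟨c, hc⟩; exact ⟨c, hc.symm⟩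
        · rintro ⟨c, hc⟩; exact ⟨c, hc.symm⟩
      rw [this]
      exact hcon
    have h2 : Tendsto (fun y => s x - s y) atTop (𝓝 (s x)) := by
      have := (tendsto_const_nhds (x := s x)).sub hs
      rwa [sub_zero] at this
    obtain ⟨c, hc⟩ := hclosed.mem_of_frequently_of_tendsto h1 h2
    exact hx ⟨c, hc.symm⟩
  obtain ⟨k, hk1, hk2⟩ := exists_seq_of_forall_finset_exists (fun n => ¬ ∃ c, s n = p • c)
    (fun m n => m < n ∧ ¬ ∃ c, s m - s n = p • c) (by
      intro S hS
      have hA : (⋃ x ∈ S, ({y | y ≤ x} ∪ {y | ∃ c, s x - s y = p • c})).Finite := by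
        apply Set.Finite.biUnion S.finite_toSet
        intro x hx
        exact (Set.finite_le_nat x).union (hfin x (hS x hx))
      obtain ⟨y, hy1, hy2⟩ := hfr.exists_notMem_finite hA
      refine ⟨y, hy1, ?_⟩
      intro x hx
      constructor
      · by_contra hcon
        rw [not_lt] at hcon
        apply hy2
        simp only [Set.mem_iUnion]
        exact ⟨x, hx, Or.inl hcon⟩
      · intro hcon
        apply hy2
        simp only [Set.mem_iUnion]
        exact ⟨x, hx, Or.inr hcon⟩)
  refine ⟨k, fun m n hmn => (hk2 m n hmn).1, ?_⟩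
  intro m n hmn
  rcases lt_or_gt_of_ne hmn with h | h
  · exact (hk2 m n h).2
  · rintro ⟨c, hc⟩
    apply (hk2 n m h).2
    refine ⟨-c, ?_⟩
    rw [smul_neg, ← hc]
    simp

end R658.SC
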