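import Mathlib
import Pool.Agent.R658.SC.Stmts

/-! # Project MP_d16342_al: TASK W -/

namespace R658.SC

open Topology Filter Set TopologicalSpace

theorem taskW : TaskW := by
  refine ⟨?_, ?_, ?_⟩
  · intro Z _ _ _ _
    unfold R658.CN.weight
    apply le_csInf
    · exact ⟨_, _, isTopologicalBasis_opens, rfl⟩
    · rintro κ ⟨B, hB, rfl⟩
      by_contra hlt
      rw [not_le, Cardinal.lt_aleph0_iff_finite] at hlt
      have : Finite (↥B) := hlt
      have hinj : Function.Injective (fun x : Z => {b : (↥B) | x ∈ b.1}) := by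
        intro x y hxy
        by_contra hne
        obtain ⟨u, v, hu, hv, hxu, hyv, huv⟩ := t2_separation hne
        obtain ⟨b, hbB, hxb, hbu⟩ := hB.exists_subset_of_mem_open hxu hu
        have h1 : (⟨b, hbB⟩ : (↥B)) ∈ {b : (↥B) | x ∈ b.1} := hxb
        have hxy' : {b : (↥B) | x ∈ b.1} = {b : (↥B) | y ∈ b.1} := hxy
        rw [hxy'] at h1
        exact (Set.disjoint_left.1 huv) (hbu h1) hyv
      have : Finite Z := Finite.of_injective _ hinj
      obtain ⟨x, y, hne⟩ := exists_pair_ne Z
      have h2 : IsClopen ({x} : Set Z) := isClopen_discrete {x}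
      have h3 := h2.eq_univ (Set.singleton_nonempty x)
      have h4 : y ∈ ({x} : Set Z) := by rw [h3]; exact Set.mem_univ y
      exact hne h4.symm
  · intro Z _ _
    have h1 : R658.CN.weight Z ≤ Cardinal.mk {U : Set Z | IsOpen U} := by
      unfold R658.CN.weight
      apply csInf_le (OrderBot.bddBelow _)
      exact ⟨_, isTopologicalBasis_opens, rfl⟩
    refine h1.trans_lt ?_
    rw [Cardinal.lt_aleph0_iff_finite]
    have : Finite Z := Finite.of_subsingleton
    exact Subtype.finite
  · rintro κ hκ ⟨α, hα, U, hU, -⟩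
    rw [← hα, Cardinal.lt_aleph0_iff_finite] at hκ
    have : Finite α := hκ
    obtain ⟨a, ha⟩ := U.eq_pure_of_finite
    apply hU a
    rw [ha]
    exact Set.mem_singleton a

end R658.SC
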